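import Pool.Agent.E8helper2.PS.Stm

set_option autoImplicit false
open MeasureTheory Filter Topology
namespace Pool.Agent.E8helper7.PS
open Pool.Agent.E8helper2.PS

lemma abel (b : ℕ → ℂ) (q : ℂ) (n : ℕ) : ∑ j ∈ Finset.range n, b j * q ^ j =
    (∑ j ∈ Finset.range n, b j) * q ^ n +
      ∑ j ∈ Finset.range n, (∑ k ∈ Finset.range (j + 1), b k) * (q ^ j - q ^ (j + 1)) := by
  induction n with
  | zero => simp
  | succ n ih =>
    rw [Finset.sum_range_succ, ih, Finset.sum_range_succ (fun j =>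
      (∑ k ∈ Finset.range (j + 1), b k) * (q ^ j - q ^ (j + 1))), Finset.sum_range_succ b n]
    ring

theorem t_ABEL : S_ABEL := by
  intro c M κ t hW ht
  set b : ℕ → ℂ := fun j => c j * Complex.exp (Complex.I * j * (κ : ℂ)) with hb
  set q : ℝ := Real.exp (-t) with hq
  have hq0 : 0 < q := Real.exp_pos _
  have hq1 : q < 1 := by
    rw [hq, Real.exp_lt_one_iff]
    linarith
  have hterm : ∀ j : ℕ, c j * Complex.exp (Complex.I * j * ((κ : ℂ) + t * Complex.I)) =
      b j * (q : ℂ) ^ j := by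
    intro j
    have e1 : Complex.I * j * ((κ : ℂ) + t * Complex.I) =
        Complex.I * j * (κ : ℂ) + j * (((-t : ℝ) : ℂ)) := by
      push_cast
      linear_combination (j * t : ℂ) * Complex.I_mul_I
    rw [e1, Complex.exp_add, Complex.exp_nat_mul, hb, hq, Complex.ofReal_exp]
    ring
  have hB : ∀ m : ℕ, ‖∑ j ∈ Finset.range m, b j‖ ≤ M := by
    intro m
    have := hW 0 m
    rwa [← Finset.range_eq_Ico] at this
  have hM : 0 ≤ M := (norm_nonneg _).trans (hB 0)
  have hbj : ∀ j : ℕ, ‖b j‖ ≤ M := by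
    intro j
    have := hW j (j + 1)
    rw [Nat.Ico_succ_singleton, Finset.sum_singleton] at this
    exact this
  have hpart : ∀ n : ℕ, ‖∑ j ∈ Finset.range n, b j * (q : ℂ) ^ j‖ ≤ M := by
    intro n
    rw [abel]
    have h1 : ‖(∑ j ∈ Finset.range n, b j) * (q : ℂ) ^ n‖ ≤ M * q ^ n := by
      rw [norm_mul, norm_pow, Complex.norm_real, Real.norm_eq_abs, abs_of_pos hq0]
      exact mul_le_mul_of_nonneg_right (hB n) (pow_nonneg hq0.le n)
    have h2 : ‖∑ j ∈ Finset.range n, (∑ k ∈ Finset.range (j + 1), b k) *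
        ((q : ℂ) ^ j - (q : ℂ) ^ (j + 1))‖ ≤ ∑ j ∈ Finset.range n, M * (q ^ j - q ^ (j + 1)) := by
      refine (norm_sum_le _ _).trans (Finset.sum_le_sum fun j _ => ?_)
      have h3 : (q : ℂ) ^ j - (q : ℂ) ^ (j + 1) = ((q ^ j - q ^ (j + 1) : ℝ) : ℂ) := by
        push_cast; ring
      have h4 : 0 ≤ q ^ j - q ^ (j + 1) :=
        sub_nonneg.2 (pow_le_pow_of_le_one hq0.le hq1.le (Nat.le_succ j))
      rw [norm_mul, h3, Complex.norm_real, Real.norm_eq_abs, abs_of_nonneg h4]
      exact mul_le_mul_of_nonneg_right (hB _) h4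
    rw [← Finset.mul_sum, Finset.sum_range_sub', pow_zero] at h2
    refine (norm_add_le _ _).trans ?_
    linarith
  have hsum : Summable fun j : ℕ => b j * (q : ℂ) ^ j := by
    refine Summable.of_norm_bounded (g := fun j : ℕ => M * q ^ j)
      ((summable_geometric_of_lt_one hq0.le hq1).mul_left M) fun j => ?_
    rw [norm_mul, norm_pow, Complex.norm_real, Real.norm_eq_abs, abs_of_pos hq0]
    exact mul_le_mul_of_nonneg_right (hbj j) (pow_nonneg hq0.le j)
  have hPhi : Phi c ((κ : ℂ) + t * Complex.I) = ∑' j : ℕ, b j * (q : ℂ) ^ j :=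
    tsum_congr hterm
  rw [hPhi]
  exact le_of_tendsto hsum.hasSum.tendsto_sum_nat.norm (Eventually.of_forall hpart)

end Pool.Agent.E8helper7.PS
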